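import Mathlib

/-!
# External contextual grammars: strictly locally 2-testable versus ordered selection

Symbols are natural numbers.
-/

namespace Pool.Agent.Results.MP_4db40a_lc.SltNotOrd

/-- `w` is a word over the alphabet `U`. -/
def Over (U : Finset ℕ) (w : List ℕ) : Prop := ∀ s ∈ w, s ∈ U

/-- `L` is an ordered language with respect to `U`: it is the set of words over `U` accepted by
a finite automaton whose state set has a total order for which every letter of `U` acts
monotonically. -/
def ORD (U : Finset ℕ) (L : Set (List ℕ)) : Prop :=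
  ∃ (Z : Type) (_ : Fintype Z) (_ : LinearOrder Z) (M : DFA ℕ Z),
    (∀ a ∈ U, Monotone (fun z => M.step z a)) ∧ L = {w | Over U w ∧ w ∈ M.accepts}

/-- `L` is strictly locally `k`-testable with respect to `U`: it consists of words over `U`, and
there are sets `B`, `I`, `E` of words of length `k` over `U` such that a word `w` over `U` with
`|w| ≥ k` lies in `L` iff its prefix of length `k` is in `B`, its suffix of length `k` is in `E`,
and every inner factor of length `k` (starting after `j ≥ 1` letters and ending before the last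
letter) is in `I`. -/
def SLT (k : ℕ) (U : Finset ℕ) (L : Set (List ℕ)) : Prop :=
  (∀ w ∈ L, Over U w) ∧ ∃ B I E : Set (List ℕ),
    (∀ x ∈ B ∪ I ∪ E, x.length = k ∧ Over U x) ∧
    ∀ w, Over U w → k ≤ w.length → (w ∈ L ↔ w.take k ∈ B ∧ w.drop (w.length - k) ∈ E ∧
      ∀ j, 1 ≤ j → j + k + 1 ≤ w.length → (w.drop j).take k ∈ I)

/-- A contextual grammar with selection languages from the family `Fam` (`Fam U S` says that `S`
is a language of the family when regarded as a language over `U`): a finite alphabet `V`, a
finite set of axioms over `V`, and finitely many selection pairs `(S i, C i)` with `S i` in the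
family over a subalphabet `U i ⊆ V` and `C i` a finite set of pairs of words over `V`. -/
structure CGrammar (Fam : Finset ℕ → Set (List ℕ) → Prop) where
  /-- the alphabet -/
  V : Finset ℕ
  /-- the axioms -/
  A : Finset (List ℕ)
  /-- index set of the selection pairs -/
  ι : Type
  fin : Finite ι
  /-- subalphabets -/
  U : ι → Finset ℕ
  /-- selection languages -/
  S : ι → Set (List ℕ)
  /-- contexts -/
  C : ι → Finset (List ℕ × List ℕ)
  A_over : ∀ a ∈ A, Over V a
  U_sub : ∀ i, U i ⊆ V
  S_fam : ∀ i, Fam (U i) (S i)
  C_over : ∀ i, ∀ c ∈ C i, Over V c.1 ∧ Over V c.2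

/-- One external derivation step. -/
def CGrammar.Step {Fam : Finset ℕ → Set (List ℕ) → Prop} (G : CGrammar Fam)
    (x y : List ℕ) : Prop :=
  ∃ i, x ∈ G.S i ∧ ∃ c ∈ G.C i, y = c.1 ++ x ++ c.2

/-- The generated language. -/
def CGrammar.lang {Fam : Finset ℕ → Set (List ℕ) → Prop} (G : CGrammar Fam) : Set (List ℕ) :=
  {y | ∃ a ∈ G.A, Relation.ReflTransGen G.Step a y}

/-- The family `EC(Fam)` of languages generated externally by contextual grammars with
selection in `Fam`. -/
def EC (Fam : Finset ℕ → Set (List ℕ) → Prop) : Set (Set (List ℕ)) :=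
  {L | ∃ G : CGrammar Fam, G.lang = L}

/-! ### The witness language -/

/-- Allowed adjacent pairs over `{a, b, c, x, y, z} = {0, ..., 5}`: all except `cx`, `ay`, `bz`. -/
def R (p q : ℕ) : Prop := ¬ (p = 2 ∧ q = 3) ∧ ¬ (p = 0 ∧ q = 4) ∧ ¬ (p = 1 ∧ q = 5)

/-- The alphabet `{a, b, c, x, y, z}`. -/
def UU : Finset ℕ := Finset.range 6

/-- Words over `{a, b, c, x, y, z}` with all adjacent pairs allowed. -/
def KK : Set (List ℕ) := {w | Over UU w ∧ w.IsChain R}

/-- The witness language `U* ∪ d K d`. -/
def LL : Set (List ℕ) := {y | Over UU y ∨ ∃ w ∈ KK, y = [6] ++ w ++ [6]}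

theorem over_append {U : Finset ℕ} {u v : List ℕ} : Over U (u ++ v) ↔ Over U u ∧ Over U v := by
  constructor
  · intro h
    exact ⟨fun s hs => h s (by simp [hs]), fun s hs => h s (by simp [hs])⟩
  · rintro ⟨h1, h2⟩ s hs
    rcases List.mem_append.1 hs with h | h
    · exact h1 s h
    · exact h2 s h

theorem mem_UU {s : ℕ} : s ∈ UU ↔ s < 6 := Finset.mem_range

/-! ### Membership in `EC(SLT₂)` -/

theorem slt_univ : SLT 2 UU {w | Over UU w} := by
  refine ⟨fun w hw => hw, {x | x.length = 2 ∧ Over UU x}, {x | x.length = 2 ∧ Over UU x},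
    {x | x.length = 2 ∧ Over UU x}, ?_, ?_⟩
  · intro x hx
    simpa using hx
  · intro w hw hk
    have hsub : ∀ j, j + 2 ≤ w.length → (w.drop j).take 2 ∈ {x | x.length = 2 ∧ Over UU x} := by
      intro j hj
      refine ⟨by rw [List.length_take, List.length_drop]; omega, ?_⟩
      intro s hs
      exact hw s (List.mem_of_mem_drop (List.mem_of_mem_take hs))
    refine ⟨fun _ => ⟨?_, ?_, ?_⟩, fun _ => hw⟩
    · simpa using hsub 0 (by omega)
    · have := hsub (w.length - 2) (by omega)
      rwa [List.take_of_length_le (by rw [List.length_drop]; omega)] at this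
    · intro j _ hj
      exact hsub j (by omega)

theorem slt_K : SLT 2 UU KK := by
  refine ⟨fun w hw => hw.1, {x | x.length = 2 ∧ Over UU x ∧ x.IsChain R},
    {x | x.length = 2 ∧ Over UU x ∧ x.IsChain R},
    {x | x.length = 2 ∧ Over UU x ∧ x.IsChain R}, ?_, ?_⟩
  · intro x hx
    have : x.length = 2 ∧ Over UU x ∧ x.IsChain R := by simpa using hx
    exact ⟨this.1, this.2.1⟩
  · intro w hw hk
    constructor
    · intro hwK
      have hsub : ∀ j, j + 2 ≤ w.length →
          (w.drop j).take 2 ∈ {x | x.length = 2 ∧ Over UU x ∧ x.IsChain R} := by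
        intro j hj
        refine ⟨by rw [List.length_take, List.length_drop]; omega, ?_, ?_⟩
        · intro s hs
          exact hw s (List.mem_of_mem_drop (List.mem_of_mem_take hs))
        · exact (hwK.2.drop j).take 2
      refine ⟨?_, ?_, ?_⟩
      · simpa using hsub 0 (by omega)
      · have := hsub (w.length - 2) (by omega)
        rwa [List.take_of_length_le (by rw [List.length_drop]; omega)] at this
      · intro j _ hj
        exact hsub j (by omega)
    · rintro ⟨h1, h2, h3⟩
      refine ⟨hw, ?_⟩
      rw [List.isChain_iff_getElem]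
      intro j hj
      have hfac : ((w.drop j).take 2).IsChain R := by
        rcases Nat.eq_zero_or_pos j with h0 | h0
        · subst h0
          simpa using h1.2.2
        · rcases Nat.lt_or_ge (j + 2) w.length with h | h
          · exact (h3 j h0 (by omega)).2.2
          · have hj2 : j = w.length - 2 := by omega
            rw [hj2, List.take_of_length_le (by rw [List.length_drop]; omega)]
            exact h2.2.2
      rw [List.isChain_iff_getElem] at hfac
      have := hfac 0 (by rw [List.length_take, List.length_drop]; omega)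
      simpa using this

/-- The grammar with strictly locally 2-testable selection. -/
def GG : CGrammar (SLT 2) where
  V := Finset.range 7
  A := {[]}
  ι := Bool
  fin := inferInstance
  U := fun _ => UU
  S := fun i => if i then KK else {w | Over UU w}
  C := fun i => if i then {([6], [6])} else UU.image (fun s => ([], [s]))
  A_over := by
    intro a ha
    rw [Finset.mem_singleton] at ha
    subst ha
    intro s hs
    simp at hs
  U_sub := fun _ => Finset.range_mono (by norm_num)
  S_fam := by
    intro i
    cases i
    · exact slt_univ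
    · exact slt_K
  C_over := by
    intro i c hc
    cases i
    · simp only [Bool.false_eq_true, if_false, Finset.mem_image] at hc
      obtain ⟨s, hs, rfl⟩ := hc
      refine ⟨by intro t ht; simp at ht, ?_⟩
      intro t ht
      rw [List.mem_singleton] at ht
      subst ht
      rw [mem_UU] at hs
      rw [Finset.mem_range]
      omega
    · simp only [if_true, Finset.mem_singleton] at hc
      subst hc
      refine ⟨?_, ?_⟩ <;>
      · intro t ht
        rw [List.mem_singleton] at ht
        subst ht
        decide

theorem GG_lang : GG.lang = LL := by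
  ext y
  constructor
  · rintro ⟨a, ha, h⟩
    have ha' : a = [] := by simpa [GG] using ha
    subst ha'
    induction h with
    | refl => left; intro s hs; simp at hs
    | tail _ hstep ih =>
      obtain ⟨i, hx, c, hc, rfl⟩ := hstep
      cases i
      · simp only [GG, Bool.false_eq_true, if_false, Finset.mem_image] at hc hx
        obtain ⟨s, hs, rfl⟩ := hc
        left
        rw [over_append, over_append]
        refine ⟨⟨by intro t ht; simp at ht, hx⟩, ?_⟩
        intro t ht
        rw [List.mem_singleton] at ht
        subst ht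
        exact hs
      · simp only [GG, if_true, Finset.mem_singleton] at hc hx
        subst hc
        right
        exact ⟨_, hx, rfl⟩
  · have hU : ∀ w, Over UU w → Relation.ReflTransGen GG.Step [] w := by
      intro w
      induction w using List.reverseRecOn with
      | nil => intro _; exact Relation.ReflTransGen.refl
      | append_singleton w s ih =>
        intro h
        rw [over_append] at h
        refine (ih h.1).tail ⟨false, h.1, ([], [s]), ?_, rfl⟩
        show ([], [s]) ∈ (UU.image (fun s => ([], [s])) : Finset (List ℕ × List ℕ))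
        rw [Finset.mem_image]
        exact ⟨s, h.2 s (by simp), rfl⟩
    rintro (h | ⟨w, hw, rfl⟩)
    · exact ⟨[], by simp [GG], hU y h⟩
    · refine ⟨[], by simp [GG], (hU w hw.1).tail ⟨true, hw, ([6], [6]), ?_, rfl⟩⟩
      show ([6], [6]) ∈ ({([6], [6])} : Finset (List ℕ × List ℕ))
      simp

/-! ### The growth argument -/

section Growth

variable {Z : Type} [LinearOrder Z] [Fintype Z]

/-- Alternating chains of alive and dead states, from the bottom. `f` gives the state of a word,
`al` says that a word is alive. -/
def Ch (f : List ℕ → Z) (al : List ℕ → Prop) : ℕ → List ℕ → Prop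
  | 0, w => al w
  | m + 1, w => al w ∧ ∃ d w', ¬ al d ∧ Over UU d ∧ f w ≤ f d ∧ f d ≤ f w' ∧ Over UU w' ∧
      Ch f al m w'

theorem ch_al {f : List ℕ → Z} {al : List ℕ → Prop} {m : ℕ} {w : List ℕ} (h : Ch f al m w) :
    al w := by
  cases m with
  | zero => exact h
  | succ m => exact h.1

/-- Appending letters preserves chains. -/
theorem ch_shift {f : List ℕ → Z} {al : List ℕ → Prop}
    (hmono : ∀ e ∈ UU, ∀ u v, Over UU u → Over UU v → f u ≤ f v → f (u ++ [e]) ≤ f (v ++ [e]))
    (hdead : ∀ u, ∀ e ∈ UU, ¬ al u → ¬ al (u ++ [e]))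
    {g e : ℕ} (hg : g ∈ UU) (he : e ∈ UU) (hal : ∀ u, al u → al (u ++ [g] ++ [e])) :
    ∀ (m : ℕ) (w : List ℕ), Over UU w → Ch f al m w → Ch f al m (w ++ [g] ++ [e]) := by
  have ho : ∀ u, Over UU u → Over UU (u ++ [g] ++ [e]) := by
    intro u hu
    rw [over_append, over_append]
    refine ⟨⟨hu, ?_⟩, ?_⟩
    · intro s hs; rw [List.mem_singleton] at hs; subst hs; exact hg
    · intro s hs; rw [List.mem_singleton] at hs; subst hs; exact he
  have ho1 : ∀ u, Over UU u → Over UU (u ++ [g]) := by
    intro u hu
    rw [over_append]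
    refine ⟨hu, ?_⟩
    intro s hs; rw [List.mem_singleton] at hs; subst hs; exact hg
  intro m
  induction m with
  | zero => intro w _ h; exact hal w h
  | succ m ih =>
    rintro w hw ⟨h1, d, w', h2, hd, h3, h4, hw', h5⟩
    refine ⟨hal w h1, d ++ [g] ++ [e], w' ++ [g] ++ [e], ?_, ho d hd, ?_, ?_, ho w' hw',
      ih w' hw' h5⟩
    · exact hdead _ e he (hdead _ g hg h2)
    · exact hmono e he _ _ (ho1 _ hw) (ho1 _ hd) (hmono g hg _ _ hw hd h3)
    · exact hmono e he _ _ (ho1 _ hd) (ho1 _ hw') (hmono g hg _ _ hd hw' h4)

theorem ch_card {f : List ℕ → Z} {al : List ℕ → Prop}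
    (hsep : ∀ u v, Over UU u → Over UU v → al u → ¬ al v → f u ≠ f v) :
    ∀ (m : ℕ) (w : List ℕ), Over UU w → Ch f al m w →
      m + 1 ≤ (Finset.univ.filter (fun q => f w ≤ q)).card := by
  intro m
  induction m with
  | zero =>
    intro w _ _
    rw [Nat.succ_le_iff, Finset.card_pos]
    exact ⟨f w, by simp⟩
  | succ m ih =>
    rintro w hw ⟨h1, d, w', h2, hd, h3, h4, hw', h5⟩
    have hlt : f w < f w' := by
      have hne := hsep w d hw hd h1 h2
      exact lt_of_lt_of_le (lt_of_le_of_ne h3 hne) h4
    have h6 := ih w' hw' h5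
    have hsub : Finset.univ.filter (fun q => f w' ≤ q) ⊂
        Finset.univ.filter (fun q => f w ≤ q) := by
      rw [Finset.ssubset_iff_of_subset]
      · refine ⟨f w, by simp, ?_⟩
        simp only [Finset.mem_filter, Finset.mem_univ, true_and, not_le]
        exact hlt
      · intro q hq
        simp only [Finset.mem_filter, Finset.mem_univ, true_and] at hq ⊢
        exact hlt.le.trans hq
    have := Finset.card_lt_card hsub
    omega

/-- Given three words, some letter keeps the outer two alive and kills the middle one. -/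
theorem growth {f : List ℕ → Z} {al : List ℕ → Prop}
    (hmono : ∀ e ∈ UU, ∀ u v, Over UU u → Over UU v → f u ≤ f v → f (u ++ [e]) ≤ f (v ++ [e]))
    (hdead : ∀ u, ∀ e ∈ UU, ¬ al u → ¬ al (u ++ [e]))
    (hal : ∀ g < 3, ∀ e ∈ UU, R g e → ∀ u, al u → al (u ++ [g] ++ [e]))
    (hkill : ∀ g e, ¬ R g e → ∀ u, ¬ al (u ++ [g] ++ [e]))
    (h0 : al []) : ∀ m : ℕ, ∃ w, Over UU w ∧ Ch f al m w := by
  have ho1 : ∀ u g, Over UU u → g ∈ UU → Over UU (u ++ [g]) := by
    intro u g hu hg
    rw [over_append]
    refine ⟨hu, ?_⟩
    intro s hs; rw [List.mem_singleton] at hs; subst hs; exact hg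
  intro m
  induction m with
  | zero => exact ⟨[], by intro s hs; simp at hs, h0⟩
  | succ m ih =>
    obtain ⟨w, hw, hch⟩ := ih
    -- sort the three states
    have key : ∀ g1 g2 g3 e : ℕ, g1 < 3 → g2 < 3 → g3 < 3 → e ∈ UU → R g1 e → ¬ R g2 e →
        R g3 e → f (w ++ [g1]) ≤ f (w ++ [g2]) → f (w ++ [g2]) ≤ f (w ++ [g3]) →
        ∃ w, Over UU w ∧ Ch f al (m + 1) w := by
      intro g1 g2 g3 e hg1 hg2 hg3 he h1 h2 h3 h12 h23
      have hU : ∀ g, g < 3 → g ∈ UU := fun g hg => by rw [mem_UU]; omega
      have o1 := ho1 w g1 hw (hU _ hg1)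
      have o2 := ho1 w g2 hw (hU _ hg2)
      have o3 := ho1 w g3 hw (hU _ hg3)
      refine ⟨w ++ [g1] ++ [e], ho1 _ _ o1 he, hal g1 hg1 e he h1 w (ch_al hch),
        w ++ [g2] ++ [e], w ++ [g3] ++ [e], hkill g2 e h2 w, ho1 _ _ o2 he,
        hmono e he _ _ o1 o2 h12, hmono e he _ _ o2 o3 h23, ho1 _ _ o3 he, ?_⟩
      exact ch_shift hmono hdead (hU _ hg3) he (fun u hu => hal g3 hg3 e he h3 u hu) m w hw hch
    have h3 : (3 : ℕ) ∈ UU := by decide
    have h4 : (4 : ℕ) ∈ UU := by decide
    have h5 : (5 : ℕ) ∈ UU := by decide
    have r03 : R 0 3 := by unfold R; omega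
    have r13 : R 1 3 := by unfold R; omega
    have r23 : ¬ R 2 3 := by unfold R; omega
    have r04 : ¬ R 0 4 := by unfold R; omega
    have r14 : R 1 4 := by unfold R; omega
    have r24 : R 2 4 := by unfold R; omega
    have r05 : R 0 5 := by unfold R; omega
    have r15 : ¬ R 1 5 := by unfold R; omega
    have r25 : R 2 5 := by unfold R; omega
    rcases le_total (f (w ++ [0])) (f (w ++ [1])) with a | a <;>
    rcases le_total (f (w ++ [1])) (f (w ++ [2])) with b | b <;>
    rcases le_total (f (w ++ [0])) (f (w ++ [2])) with c | c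
    · exact key 0 1 2 5 (by omega) (by omega) (by omega) h5 r05 r15 r25 a b
    · exact key 0 1 2 5 (by omega) (by omega) (by omega) h5 r05 r15 r25 a b
    · exact key 0 2 1 3 (by omega) (by omega) (by omega) h3 r03 r23 r13 c b
    · exact key 2 0 1 4 (by omega) (by omega) (by omega) h4 r24 r04 r14 c a
    · exact key 1 0 2 4 (by omega) (by omega) (by omega) h4 r14 r04 r24 a c
    · exact key 1 2 0 3 (by omega) (by omega) (by omega) h3 r13 r23 r03 b c
    · exact key 2 1 0 5 (by omega) (by omega) (by omega) h5 r25 r15 r05 b a
    · exact key 2 1 0 5 (by omega) (by omega) (by omega) h5 r25 r15 r05 b a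

theorem no_growth {f : List ℕ → Z} {al : List ℕ → Prop}
    (hmono : ∀ e ∈ UU, ∀ u v, Over UU u → Over UU v → f u ≤ f v → f (u ++ [e]) ≤ f (v ++ [e]))
    (hdead : ∀ u, ∀ e ∈ UU, ¬ al u → ¬ al (u ++ [e]))
    (hal : ∀ g < 3, ∀ e ∈ UU, R g e → ∀ u, al u → al (u ++ [g] ++ [e]))
    (hkill : ∀ g e, ¬ R g e → ∀ u, ¬ al (u ++ [g] ++ [e]))
    (hsep : ∀ u v, Over UU u → Over UU v → al u → ¬ al v → f u ≠ f v)
    (h0 : al []) : False := by
  obtain ⟨w, hw, hch⟩ := growth hmono hdead hal hkill h0 (Fintype.card Z)
  have h1 := ch_card hsep _ w hw hch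
  have h2 := Finset.card_le_univ (Finset.univ.filter (fun q => f w ≤ q))
  omega

end Growth

/-! ### The language is not in `EC(ORD)` -/

theorem KK_prefix {u v : List ℕ} (h : u ++ v ∈ KK) : u ∈ KK :=
  ⟨(over_append.1 h.1).1, h.2.left_of_append⟩

theorem KK_append {u : List ℕ} {g : ℕ} (h : u ∈ KK) (hg : g < 3) : u ++ [g] ∈ KK := by
  refine ⟨?_, ?_⟩
  · rw [over_append]
    refine ⟨h.1, ?_⟩
    intro s hs
    rw [List.mem_singleton] at hs
    subst hs
    rw [mem_UU]
    omega
  · rw [List.isChain_append]
    refine ⟨h.2, List.isChain_singleton _, ?_⟩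
    intro x _ y hy
    simp only [List.head?_cons, Option.mem_def, Option.some.injEq] at hy
    subst hy
    unfold R
    omega

theorem KK_append2 {u : List ℕ} {g e : ℕ} (h : u ∈ KK) (hg : g < 3) (he : e ∈ UU)
    (hR : R g e) : u ++ [g] ++ [e] ∈ KK := by
  have h1 := KK_append h hg
  refine ⟨?_, ?_⟩
  · rw [over_append]
    refine ⟨h1.1, ?_⟩
    intro s hs
    rw [List.mem_singleton] at hs
    subst hs
    exact he
  · rw [List.isChain_append]
    refine ⟨h1.2, List.isChain_singleton _, ?_⟩
    intro x hx y hy
    simp only [List.head?_cons, Option.mem_def, Option.some.injEq] at hy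
    subst hy
    rw [List.getLast?_append, List.getLast?_singleton] at hx
    simp only [Option.some_or, Option.mem_def, Option.some.injEq] at hx
    subst hx
    exact hR

theorem KK_kill {u : List ℕ} {g e : ℕ} (hR : ¬ R g e) : u ++ [g] ++ [e] ∉ KK := by
  intro h
  have h1 := h.2
  rw [List.append_assoc] at h1
  have h2 := h1.right_of_append
  simp only [List.cons_append, List.nil_append, List.isChain_cons_cons] at h2
  exact hR h2.1

theorem KK_rep {u : List ℕ} (h : u ∈ KK) (n : ℕ) : u ++ List.replicate n 0 ∈ KK := by
  induction n with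
  | zero => simpa using h
  | succ n ih =>
    rw [List.replicate_succ', ← List.append_assoc]
    exact KK_append ih (by norm_num)

theorem six_notMem {w : List ℕ} (h : Over UU w) : 6 ∉ w := by
  intro h6
  have := h 6 h6
  rw [mem_UU] at this
  omega

/-- If `u' x v'` ends up inside the language with the letter `d` in it, the middle is in `K`. -/
theorem mem_LL_six {w : List ℕ} (hw : [6] ++ w ++ [6] ∈ LL) : w ∈ KK := by
  rcases hw with h | ⟨w', hw', h⟩
  · exact absurd (show (6 : ℕ) ∈ [6] ++ w ++ [6] by simp) (six_notMem h)
  · have h1 : [6] ++ (w ++ [6]) = [6] ++ (w' ++ [6]) := by simpa using h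
    have h2 := List.append_cancel_left h1
    have h3 := List.append_cancel_right h2
    rw [h3]; exact hw'

theorem not_EC_ORD : LL ∉ EC ORD := by
  classical
  rintro ⟨G, hG⟩
  haveI := G.fin
  haveI := Fintype.ofFinite G.ι
  -- a bound for axioms and contexts
  obtain ⟨N, hNA, hNC⟩ : ∃ N : ℕ, (∀ a ∈ G.A, a.length ≤ N) ∧
      ∀ i, ∀ c ∈ G.C i, c.1.length + c.2.length ≤ N := by
    refine ⟨max (G.A.sup List.length)
      (Finset.univ.sup fun i => (G.C i).sup fun c => c.1.length + c.2.length), ?_, ?_⟩
    · intro a ha
      exact (Finset.le_sup (f := List.length) ha).trans (le_max_left _ _)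
    · intro i c hc
      refine le_trans ?_ (le_max_right _ _)
      exact (Finset.le_sup (f := fun c : List ℕ × List ℕ => c.1.length + c.2.length) hc).trans
        (Finset.le_sup (f := fun i => (G.C i).sup fun c => c.1.length + c.2.length)
          (Finset.mem_univ i))
  -- covering
  have hcover : ∀ y, y ∈ G.lang → ∀ w ∈ KK, N ≤ w.length → y = [6] ++ w ++ [6] →
      ∃ i, ∃ u' v' x, ((6 :: u', v' ++ [6]) : List ℕ × List ℕ) ∈ G.C i ∧ x ∈ G.S i ∧
        Over UU x ∧ w = u' ++ x ++ v' := by
    rintro y ⟨a, ha, h⟩
    induction h with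
    | refl =>
      intro w _ hwN hy
      have h1 := hNA a ha
      rw [hy] at h1
      simp at h1
      omega
    | @tail b y' hab hstep ih =>
      intro w hwK hwN hy
      obtain ⟨i, hx, c, hc, rfl⟩ := hstep
      have hb : b ∈ LL := by rw [← hG]; exact ⟨a, ha, hab⟩
      have hcN := hNC i c hc
      obtain ⟨u, v⟩ := c
      simp only at hy hcN
      rcases hb with hb | ⟨w', hw', rfl⟩
      · -- `b` has no letter `d`
        have hbne : b ≠ [] := by
          rintro rfl
          have := congrArg List.length hy
          simp at this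
          omega
        have hu : ∃ u', u = 6 :: u' := by
          rcases u with _ | ⟨s, u'⟩
          · exfalso
            obtain ⟨s, b', rfl⟩ := List.exists_cons_of_ne_nil hbne
            simp only [List.nil_append, List.cons_append, List.cons.injEq] at hy
            have := hb s (by simp)
            rw [mem_UU] at this
            omega
          · simp only [List.cons_append, List.nil_append, List.cons.injEq] at hy
            exact ⟨u', by rw [hy.1]⟩
        obtain ⟨u', rfl⟩ := hu
        have hv : ∃ v', v = v' ++ [6] := by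
          rcases List.eq_nil_or_concat v with rfl | ⟨v', s, rfl⟩
          · exfalso
            rcases List.eq_nil_or_concat b with rfl | ⟨b', s, rfl⟩
            · exact hbne rfl
            · have h1 : (6 :: u' ++ b') ++ [s] = ([6] ++ w) ++ [6] := by simpa using hy
              have h2 := List.append_inj_right' h1 rfl
              simp only [List.cons.injEq, and_true] at h2
              have := hb s (by simp)
              rw [mem_UU] at this
              omega
          · have h1 : (6 :: u' ++ b ++ v') ++ [s] = ([6] ++ w) ++ [6] := by simpa using hy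
            have h2 := List.append_inj_right' h1 rfl
            simp only [List.cons.injEq, and_true] at h2
            exact ⟨v', by rw [h2]; simp⟩
        obtain ⟨v', rfl⟩ := hv
        refine ⟨i, u', v', b, hc, hx, hb, ?_⟩
        have h1 : [6] ++ ((u' ++ b ++ v') ++ [6]) = [6] ++ (w ++ [6]) := by simpa using hy
        exact (List.append_cancel_right (List.append_cancel_left h1)).symm
      · -- `b` already has the two letters `d`
        have hcount := congrArg (List.count 6) hy
        have hw0 : w.count 6 = 0 := List.count_eq_zero_of_not_mem (six_notMem hwK.1)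
        have hw0' : w'.count 6 = 0 := List.count_eq_zero_of_not_mem (six_notMem hw'.1)
        simp only [List.count_append, List.count_singleton_self, hw0, hw0'] at hcount
        have hu : u = [] := by
          rcases u with _ | ⟨s, u'⟩
          · rfl
          · simp only [List.cons_append, List.nil_append, List.cons.injEq] at hy
            rw [hy.1, List.count_cons_self] at hcount
            omega
        have hv : v = [] := by
          rcases List.eq_nil_or_concat v with rfl | ⟨v', s, rfl⟩
          · rfl
          · exfalso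
            have h1 : (u ++ ([6] ++ w' ++ [6]) ++ v') ++ [s] = ([6] ++ w) ++ [6] := by
              simpa using hy
            have h2 := List.append_inj_right' h1 rfl
            simp only [List.cons.injEq, and_true] at h2
            rw [h2] at hcount
            simp only [List.concat_eq_append, List.count_append, List.count_singleton_self]
              at hcount
            omega
        subst hu hv
        exact ih w hwK hwN (by simpa using hy)
  -- converse
  have hconv : ∀ i u' v' x, ((6 :: u', v' ++ [6]) : List ℕ × List ℕ) ∈ G.C i → x ∈ G.S i →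
      Over UU x → u' ++ x ++ v' ∈ KK := by
    intro i u' v' x hc hx hxU
    apply mem_LL_six
    rw [← hG]
    have hxL : x ∈ G.lang := by rw [hG]; exact Or.inl hxU
    obtain ⟨a, ha, h⟩ := hxL
    refine ⟨a, ha, h.tail ⟨i, hx, _, hc, ?_⟩⟩
    simp
  -- the finite set of rules of the second kind
  set T : Set (G.ι × (List ℕ × List ℕ)) :=
    {t | ((6 :: t.2.1, t.2.2 ++ [6]) : List ℕ × List ℕ) ∈ G.C t.1} with hT
  have hTfin : T.Finite := by
    have : T ⊆ ⋃ i : G.ι, (fun c : List ℕ × List ℕ => (i, (c.1.tail, c.2.dropLast))) ''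
        (G.C i : Set (List ℕ × List ℕ)) := by
      rintro ⟨i, u', v'⟩ ht
      rw [Set.mem_iUnion]
      exact ⟨i, _, ht, by simp⟩
    exact (Set.finite_iUnion fun i => (G.C i).finite_toSet.image _).subset this
  set J : List ℕ → Set (G.ι × (List ℕ × List ℕ)) := fun p =>
    {t | t ∈ T ∧ ∃ x r, x ∈ G.S t.1 ∧ Over UU x ∧ t.2.1 ++ x ++ t.2.2 = p ++ r ∧
      t.2.2.length ≤ r.length} with hJ
  have hJfin : ∀ p, (J p).Finite := fun p => hTfin.subset fun t ht => ht.1
  -- a prefix with the minimal number of useful rules
  have hex : ∃ n, ∃ p ∈ KK, N ≤ p.length ∧ (J p).ncard = n := by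
    refine ⟨_, List.replicate N 0, ?_, by simp, rfl⟩
    have := KK_rep (u := []) ⟨by intro s hs; simp at hs, List.isChain_nil⟩ N
    simpa using this
  obtain ⟨p, hpK, hpN, hpn⟩ := Nat.find_spec hex
  have hmin : ∀ q, p ++ q ∈ KK → J (p ++ q) = J p := by
    intro q hq
    apply Set.eq_of_subset_of_ncard_le _ _ (hJfin p)
    · rintro ⟨i, u', v'⟩ ⟨h1, x, r, h2, h3, h4, h5⟩
      refine ⟨h1, x, q ++ r, h2, h3, by rw [h4]; simp, ?_⟩
      rw [List.length_append]
      omega
    · rw [hpn]
      exact Nat.find_min' hex ⟨p ++ q, hq, by rw [List.length_append]; omega, rfl⟩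
  have hne : (J p).Nonempty := by
    have hw := KK_rep hpK N
    have hwL : [6] ++ (p ++ List.replicate N 0) ++ [6] ∈ G.lang := by
      rw [hG]; exact Or.inr ⟨_, hw, rfl⟩
    obtain ⟨i, u', v', x, hc, hx, hxU, he⟩ := hcover _ hwL _ hw
      (by rw [List.length_append]; omega) rfl
    refine ⟨(i, (u', v')), hc, x, List.replicate N 0, hx, hxU, he.symm, ?_⟩
    have := hNC i _ hc
    simp at this ⊢
    omega
  obtain ⟨⟨i, u', v'⟩, htJ⟩ := hne
  have htT : ((6 :: u', v' ++ [6]) : List ℕ × List ℕ) ∈ G.C i := htJ.1
  have hulen : u'.length ≤ p.length := by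
    have := hNC i _ htT
    simp at this
    omega
  obtain ⟨Z, _, _, M, hM, hSi⟩ := G.S_fam i
  -- splitting of accepted words
  have hsplit : ∀ q, p ++ q ∈ KK → ∃ x2, Over UU x2 ∧ Over (G.U i) x2 ∧
      Over (G.U i) ((p ++ q).drop u'.length) ∧
      (p ++ q).drop u'.length ++ x2 ∈ G.S i := by
    intro q hq
    have : (i, (u', v')) ∈ J (p ++ q) := by rw [hmin q hq]; exact htJ
    obtain ⟨-, x, r, hx, hxU, he, hlen⟩ := this
    simp only at he hlen hx
    have he1 := congrArg (List.drop u'.length) he
    rw [List.append_assoc, List.drop_left, List.drop_append_of_le_length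
      (by rw [List.length_append]; omega)] at he1
    rw [List.append_eq_append_iff] at he1
    rcases he1 with ⟨c, hc1, hc2⟩ | ⟨c, hc1, hc2⟩
    · -- `x` would be too short
      have hc0 : c = [] := by
        have := congrArg List.length hc2
        rw [List.length_append] at this
        exact List.eq_nil_of_length_eq_zero (by omega)
      subst hc0
      rw [List.append_nil] at hc1
      refine ⟨[], by intro s hs; simp at hs, by intro s hs; simp at hs, ?_, ?_⟩
      · rw [hc1]
        rw [hSi] at hx
        exact hx.1
      · rw [List.append_nil, hc1]; exact hx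
    · rw [hc1] at hx hxU
      have hx' := hx
      rw [hSi] at hx'
      exact ⟨c, (over_append.1 hxU).2, (over_append.1 hx'.1).2, (over_append.1 hx'.1).1, hx⟩
  -- all letters are in the subalphabet of the rule
  have hletter : ∀ e ∈ UU, e ∈ G.U i := by
    intro e he
    have hq : ∃ q, p ++ q ∈ KK ∧ e ∈ q := by
      have he' := mem_UU.1 he
      rcases (show e < 3 ∨ e = 3 ∨ e = 4 ∨ e = 5 by omega) with h | h | h | h
      · exact ⟨[e], KK_append hpK h, by simp⟩
      · subst h
        refine ⟨[0, 3], ?_, by simp⟩
        have := KK_append2 (g := 0) (e := 3) hpK (by norm_num) he (by unfold R; omega)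
        simpa using this
      · subst h
        refine ⟨[1, 4], ?_, by simp⟩
        have := KK_append2 (g := 1) (e := 4) hpK (by norm_num) he (by unfold R; omega)
        simpa using this
      · subst h
        refine ⟨[2, 5], ?_, by simp⟩
        have := KK_append2 (g := 2) (e := 5) hpK (by norm_num) he (by unfold R; omega)
        simpa using this
    obtain ⟨q, hq, heq⟩ := hq
    obtain ⟨x2, _, _, h3, _⟩ := hsplit q hq
    apply h3
    rw [List.drop_append_of_le_length hulen]
    simp [heq]
  -- the state reached
  set f : List ℕ → Z := fun q => M.eval ((p ++ q).drop u'.length) with hf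
  have hfstep : ∀ q e, f (q ++ [e]) = M.step (f q) e := by
    intro q e
    show M.eval ((p ++ (q ++ [e])).drop u'.length) = M.step (M.eval ((p ++ q).drop u'.length)) e
    rw [← List.append_assoc, List.drop_append_of_le_length (by rw [List.length_append]; omega),
      DFA.eval_append_singleton]
  refine no_growth (f := f) (al := fun q => p ++ q ∈ KK) ?_ ?_ ?_ ?_ ?_ ?_
  · intro e he u v _ _ huv
    rw [hfstep, hfstep]
    exact hM e (hletter e he) huv
  · intro u e _ hu h
    apply hu
    rw [← List.append_assoc] at h
    exact KK_prefix h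
  · intro g hg e he hR u hu
    have := KK_append2 (u := p ++ u) hu hg he hR
    simpa using this
  · intro g e hR u h
    have h1 : (p ++ u) ++ [g] ++ [e] ∈ KK := by simpa using h
    exact KK_kill hR h1
  · -- separation of alive and dead states
    intro u v _ hv hu hnv heq
    obtain ⟨x2, hx2U, hx2Ui, -, hx2⟩ := hsplit u hu
    obtain ⟨-, -, -, hpUi, -⟩ := hsplit [] (by simpa using hpK)
    rw [List.append_nil] at hpUi
    have hxS : (p ++ v).drop u'.length ++ x2 ∈ G.S i := by
      rw [hSi]
      refine ⟨?_, ?_⟩
      · rw [over_append, List.drop_append_of_le_length hulen, over_append]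
        exact ⟨⟨hpUi, fun s hs => hletter s (hv s hs)⟩, hx2Ui⟩
      · rw [hSi] at hx2
        have h1 := hx2.2
        rw [DFA.mem_accepts, DFA.eval, DFA.evalFrom_of_append] at h1 ⊢
        have h2 : M.evalFrom M.start ((p ++ u).drop u'.length) =
            M.evalFrom M.start ((p ++ v).drop u'.length) := heq
        rw [← h2]
        exact h1
    have hxU : Over UU ((p ++ v).drop u'.length ++ x2) := by
      rw [over_append, List.drop_append_of_le_length hulen, over_append]
      refine ⟨⟨fun s hs => hpK.1 s (List.mem_of_mem_drop hs), hv⟩, hx2U⟩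
    have h1 := hconv i u' v' _ htT hxS hxU
    -- the prefix `u'` of `p`
    obtain ⟨-, x, r, -, -, he, -⟩ := htJ
    simp only at he
    have hup : u' = p.take u'.length := by
      have := congrArg (List.take u'.length) he
      rw [List.append_assoc, List.take_left, List.take_append_of_le_length hulen] at this
      exact this
    apply hnv
    have h2 : u' ++ ((p ++ v).drop u'.length ++ x2) ++ v' = (p ++ v) ++ (x2 ++ v') := by
      have h3 : u' ++ (p ++ v).drop u'.length = p ++ v := by
        conv_lhs => rw [hup]
        rw [List.length_take, min_eq_left hulen]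
        have h4 : p.take u'.length = (p ++ v).take u'.length :=
          (List.take_append_of_le_length hulen).symm
        rw [h4, List.take_append_drop]
      rw [← List.append_assoc, h3]
      simp
    rw [h2] at h1
    exact KK_prefix h1
  · simpa using hpK

/-- Some language generated externally with strictly locally 2-testable selection cannot be
generated externally with ordered selection. -/
theorem result : (EC (SLT 2) \ EC ORD).Nonempty :=
  ⟨LL, ⟨GG, GG_lang⟩, not_EC_ORD⟩

end Pool.Agent.Results.MP_4db40a_lc.SltNotOrd
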